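/-
helper47. LSQ, row JMB: levels from a supply of the second kind.
-/
import Pool.Agent.H85.LSP.Def2
import Pool.Agent.H96.LSP.CNT

set_option autoImplicit false

namespace Pool.LSP

open Polynomial Filter Topology Finset
open scoped ComplexConjugate

/-- the size of the translations of level `i` -/
noncomputable def jd (ω d0 ρ : ℝ) (s M1 i : ℕ) : ℝ :=
  min (ω ^ i * d0) (1 / (3 * M1 * ρ ^ ((i + 1) * s)))

theorem jd_pos {ω d0 ρ : ℝ} {s M1 : ℕ} (hω : 0 < ω) (hd : 0 < d0) (hρ : 0 < ρ) (hM : 1 ≤ M1)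
    (i : ℕ) : 0 < jd ω d0 ρ s M1 i := by
  have : (0 : ℝ) < M1 := by exact_mod_cast hM
  exact lt_min (by positivity) (by positivity)

theorem jd_le_add {ω d0 ρ : ℝ} {s M1 : ℕ} (hω : 0 < ω) (hρ : 0 < ρ) (hM : 1 ≤ M1)
    (hs : 1 ≤ ω * ρ ^ s) (i j : ℕ) : jd ω d0 ρ s M1 (i + j) ≤ ω ^ j * jd ω d0 ρ s M1 i := by
  have hM' : (0 : ℝ) < M1 := by exact_mod_cast hM
  unfold jd
  rw [mul_min_of_nonneg _ _ (by positivity)]
  refine min_le_min (le_of_eq (by rw [pow_add]; ring)) ?_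
  rw [mul_one_div, div_le_div_iff₀ (by positivity) (by positivity), one_mul]
  have h1 : (1 : ℝ) ≤ (ω * ρ ^ s) ^ j := one_le_pow₀ hs
  have e1 : ω ^ j * (3 * M1 * ρ ^ ((i + j + 1) * s)) =
      (3 * M1 * ρ ^ ((i + 1) * s)) * (ω * ρ ^ s) ^ j := by
    have e2 : (i + j + 1) * s = (i + 1) * s + s * j := by ring
    rw [e2, pow_add, mul_pow, ← pow_mul]
    ring
  rw [e1]
  exact le_mul_of_one_le_right (by positivity) h1

open Classical in
/-- One level. -/
theorem jmb_lev (hCN1 : CN1Stmt) (V : Submodule ℝ (ℤ → ℝ)) (β : ℂ) (l t : ℝ) (hF : Fr V β l)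
    (ht : 1 < t) (htb : t < ‖β‖) (hS : Spb V t) (s M1 : ℕ) (hM1 : M1 = 2 * s + 1) (δ : ℝ)
    (hδ : 0 < δ) (N : ℕ) (hN : 3 * M1 * δ * ‖β‖ ^ N ≤ 1) (L : ℕ) :
    ∃ g : ℕ → ℤ → ℝ, (∀ k, k < M1 * M1 → g k ∈ V ∧ (∃ p : ℤ, g k 0 = p) ∧
      (∀ n : ℤ, -(L : ℤ) ≤ n → n < 0 → nr (g k n) ≤ 6 * M1 * δ) ∧
      (∀ n : ℕ, nr (g k n) ≤ 6 * M1 * δ * ‖β‖ ^ n)) ∧
    ∀ (φ : ℕ → ℝ) (S : Finset ℕ), S.card ≤ s → (∀ n ∈ S, 1 ≤ n ∧ n ≤ N) →
      ∃ k, k < M1 * M1 ∧ ∀ n ∈ S, (1 / t - 1 / ‖β‖) * δ * ‖β‖ ^ n / 4 ≤ hd (φ n + g k n) := by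
  have hρ1 : 1 < ‖β‖ := ht.trans htb
  have hρ0 : 0 < ‖β‖ := by linarith
  have ht0 : 0 < t := by linarith
  have hM0 : 0 < M1 := by omega
  have hM0' : (0 : ℝ) < M1 := by exact_mod_cast hM0
  obtain ⟨g, hgV, r, a, ha1, ha2, hr, har⟩ := hS δ L hδ
  have ha0 : 0 < a := by linarith
  have hr0 : |r 0| ≤ a := (hr 0 (by omega)).1
  -- the two translations
  set zp : ℂ := (r 0 : ℂ) * (1 + Complex.I) with hzp
  set zm : ℂ := (r 0 : ℂ) * (1 - Complex.I) with hzm
  have hnzp : ‖zp‖ ≤ 2 * a := by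
    rw [hzp, norm_mul, Complex.norm_real, Real.norm_eq_abs]
    have h1 : ‖(1 : ℂ) + Complex.I‖ ≤ 2 := by
      refine (norm_add_le _ _).trans ?_
      rw [norm_one, Complex.norm_I]; norm_num
    nlinarith [abs_nonneg (r 0), norm_nonneg ((1 : ℂ) + Complex.I)]
  have hnzm : ‖zm‖ ≤ 2 * a := by
    rw [hzm, norm_mul, Complex.norm_real, Real.norm_eq_abs]
    have h1 : ‖(1 : ℂ) - Complex.I‖ ≤ 2 := by
      refine (norm_sub_le _ _).trans ?_
      rw [norm_one, Complex.norm_I]; norm_num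
    nlinarith [abs_nonneg (r 0), norm_nonneg ((1 : ℂ) - Complex.I)]
  set up : ℤ → ℝ := fun n => (zp * β ^ n).re with hup
  set um : ℤ → ℝ := fun n => (zm * β ^ n).re with hum
  have hupn : ∀ n : ℤ, |up n| ≤ 2 * a * ‖β‖ ^ n := by
    intro n
    refine (Complex.abs_re_le_norm _).trans ?_
    rw [norm_mul, norm_zpow]
    exact mul_le_mul_of_nonneg_right hnzp (by positivity)
  have humn : ∀ n : ℤ, |um n| ≤ 2 * a * ‖β‖ ^ n := by
    intro n
    refine (Complex.abs_re_le_norm _).trans ?_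
    rw [norm_mul, norm_zpow]
    exact mul_le_mul_of_nonneg_right hnzm (by positivity)
  set ep : ℤ → ℝ := fun n => - r n + up n with hep
  set em : ℤ → ℝ := fun n => - r n + um n with hem
  -- sizes of the errors
  have hepn : ∀ n : ℤ, -(L : ℤ) ≤ n → |ep n| ≤ a + 2 * a * ‖β‖ ^ n := by
    intro n hn
    refine (abs_add_le _ _).trans ?_
    rw [abs_neg]
    exact add_le_add (hr n hn).1 (hupn n)
  have hemn : ∀ n : ℤ, -(L : ℤ) ≤ n → |em n| ≤ a + 2 * a * ‖β‖ ^ n := by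
    intro n hn
    refine (abs_add_le _ _).trans ?_
    rw [abs_neg]
    exact add_le_add (hr n hn).1 (humn n)
  -- the family
  set G : ℕ → ℤ → ℝ := fun k n =>
    ((k % M1 : ℕ) : ℝ) * (g n + up n) + ((k / M1 : ℕ) : ℝ) * (g n + um n) with hG
  have hGV : ∀ k, G k ∈ V := by
    intro k
    have h1 : (fun n => g n + up n) ∈ V := V.add_mem hgV (hF.dir zp)
    have h2 : (fun n => g n + um n) ∈ V := V.add_mem hgV (hF.dir zm)
    exact V.add_mem (V.smul_mem _ h1) (V.smul_mem _ h2)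
  -- reduction modulo one
  have hGe : ∀ k (n : ℤ), -(L : ℤ) ≤ n → ∃ p : ℤ, G k n =
      (((k % M1 : ℕ) : ℝ) * ep n + ((k / M1 : ℕ) : ℝ) * em n) + p := by
    intro k n hn
    obtain ⟨p, hp⟩ := (hr n hn).2
    refine ⟨(((k % M1 : ℕ) : ℤ) + ((k / M1 : ℕ) : ℤ)) * p, ?_⟩
    simp only [hG, hep, hem, hp]
    rw [Int.cast_mul, Int.cast_add, Int.cast_natCast, Int.cast_natCast]
    ring
  have hkk : ∀ k, k < M1 * M1 → k % M1 < M1 ∧ k / M1 < M1 := fun k hk =>
    ⟨Nat.mod_lt _ hM0, Nat.div_lt_of_lt_mul hk⟩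
  have hGn : ∀ k (n : ℤ) (E : ℝ), k < M1 * M1 → -(L : ℤ) ≤ n → |ep n| ≤ E → |em n| ≤ E →
      nr (G k n) ≤ 2 * M1 * E := by
    intro k n E hk hn h1 h2
    obtain ⟨p, hp⟩ := hGe k n hn
    rw [hp, nr_add_int]
    have h3 := nr_le_int (((k % M1 : ℕ) : ℝ) * ep n + ((k / M1 : ℕ) : ℝ) * em n) 0
    rw [Int.cast_zero, sub_zero] at h3
    refine h3.trans ((abs_add_le _ _).trans ?_)
    rw [abs_mul, abs_mul, Nat.abs_cast, Nat.abs_cast]
    have h4 : ((k % M1 : ℕ) : ℝ) ≤ M1 := by exact_mod_cast (hkk k hk).1.le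
    have h5 : ((k / M1 : ℕ) : ℝ) ≤ M1 := by exact_mod_cast (hkk k hk).2.le
    have h6 := mul_le_mul h4 h1 (abs_nonneg _) hM0'.le
    have h7 := mul_le_mul h5 h2 (abs_nonneg _) hM0'.le
    linarith
  refine ⟨G, fun k hk => ⟨hGV k, ?_, ?_, ?_⟩, ?_⟩
  · -- integral at zero
    obtain ⟨p, hp⟩ := (hr 0 (by omega)).2
    refine ⟨(((k % M1 : ℕ) : ℤ) + ((k / M1 : ℕ) : ℤ)) * p, ?_⟩
    have e1 : up 0 = r 0 := by simp [hup, hzp]
    have e2 : um 0 = r 0 := by simp [hum, hzm]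
    simp only [hG, e1, e2, hp]
    rw [Int.cast_mul, Int.cast_add, Int.cast_natCast, Int.cast_natCast]
    ring
  · intro n hn hn0
    have hb : ‖β‖ ^ n ≤ 1 := zpow_le_one_of_nonpos₀ hρ1.le hn0.le
    have h1 : a + 2 * a * ‖β‖ ^ n ≤ 3 * δ := by nlinarith
    refine (hGn k n (3 * δ) hk hn ((hepn n hn).trans h1) ((hemn n hn).trans h1)).trans
      (le_of_eq (by ring))
  · intro n
    have hb : (1 : ℝ) ≤ ‖β‖ ^ n := one_le_pow₀ hρ1.le
    have hn : -(L : ℤ) ≤ (n : ℤ) := by omega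
    have h1 : a + 2 * a * ‖β‖ ^ (n : ℤ) ≤ 3 * δ * ‖β‖ ^ n := by
      rw [zpow_natCast]
      nlinarith
    refine (hGn k n (3 * δ * ‖β‖ ^ n) hk hn ((hepn n hn).trans h1) ((hemn n hn).trans h1)).trans
      (le_of_eq (by ring))
  · intro φ S hSs hSN
    -- one of the two errors is large
    have hbig : ∀ n : ℕ, 1 ≤ n → 2 * ((1 / t - 1 / ‖β‖) * δ * ‖β‖ ^ n / 4) ≤ |ep n| ∨
        2 * ((1 / t - 1 / ‖β‖) * δ * ‖β‖ ^ n / 4) ≤ |em n| := by
      intro n hn
      have hn' : -(L : ℤ) ≤ (n : ℤ) := by omega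
      obtain ⟨x, hx⟩ : ∃ x : ℝ, x = (β ^ (n : ℤ)).re := ⟨_, rfl⟩
      obtain ⟨y, hy⟩ : ∃ y : ℝ, y = (β ^ (n : ℤ)).im := ⟨_, rfl⟩
      have e1 : up n = r 0 * (x - y) := by
        simp only [hup, hzp, hx, hy, Complex.mul_re, Complex.add_re, Complex.add_im,
          Complex.mul_im, Complex.ofReal_re, Complex.ofReal_im, Complex.one_re, Complex.one_im,
          Complex.I_re, Complex.I_im]
        ring
      have e2 : um n = r 0 * (x + y) := by
        simp only [hum, hzm, hx, hy, Complex.mul_re, Complex.sub_re, Complex.sub_im,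
          Complex.mul_im, Complex.ofReal_re, Complex.ofReal_im, Complex.one_re, Complex.one_im,
          Complex.I_re, Complex.I_im]
        ring
      have hxy : ‖β‖ ^ n ≤ |x| + |y| := by
        have := Complex.norm_le_abs_re_add_abs_im (β ^ (n : ℤ))
        rwa [norm_zpow, zpow_natCast, ← hx, ← hy] at this
      have hmax : |x| + |y| ≤ |x - y| ∨ |x| + |y| ≤ |x + y| := by
        rcases abs_cases x with ⟨h1, _⟩ | ⟨h1, _⟩ <;> rcases abs_cases y with ⟨h2, _⟩ | ⟨h2, _⟩ <;>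
          rw [h1, h2]
        · right; exact (le_abs_self _)
        · left; have := le_abs_self (x - y); linarith
        · left; have := neg_abs_le (x - y); linarith
        · right; have := neg_abs_le (x + y); linarith
      have hb1 : ‖β‖ ≤ ‖β‖ ^ n := by
        calc ‖β‖ = ‖β‖ ^ 1 := (pow_one _).symm
          _ ≤ ‖β‖ ^ n := pow_le_pow_right₀ hρ1.le hn
      have hlow : (1 / t - 1 / ‖β‖) * δ * ‖β‖ ^ n / 2 ≤ |r 0| * ‖β‖ ^ n - a := by
        have h1 : a / t ≤ |r 0| := by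
          rw [div_le_iff₀ ht0]
          linarith
        have h2 : a ≤ a / ‖β‖ * ‖β‖ ^ n := by
          have : a = a / ‖β‖ * ‖β‖ := by field_simp
          calc a = a / ‖β‖ * ‖β‖ := this
            _ ≤ a / ‖β‖ * ‖β‖ ^ n := mul_le_mul_of_nonneg_left hb1 (by positivity)
        have h3 : a / t * ‖β‖ ^ n ≤ |r 0| * ‖β‖ ^ n :=
          mul_le_mul_of_nonneg_right h1 (by positivity)
        have hc1 : 0 < 1 / t - 1 / ‖β‖ := by
          have := one_div_lt_one_div_of_lt ht0 htb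
          linarith
        have h4 : (1 / t - 1 / ‖β‖) * (δ / 2) * ‖β‖ ^ n ≤ (1 / t - 1 / ‖β‖) * a * ‖β‖ ^ n :=
          mul_le_mul_of_nonneg_right (mul_le_mul_of_nonneg_left ha1 hc1.le) (by positivity)
        have e3 : (1 / t - 1 / ‖β‖) * a * ‖β‖ ^ n = a / t * ‖β‖ ^ n - a / ‖β‖ * ‖β‖ ^ n := by
          ring
        have e4 : (1 / t - 1 / ‖β‖) * δ * ‖β‖ ^ n / 2 =
          (1 / t - 1 / ‖β‖) * (δ / 2) * ‖β‖ ^ n := by ring
        linarith
      have hrn := (hr n hn').1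
      rcases hmax with h | h
      · left
        have h5 : |up n| = |r 0| * |x - y| := by rw [e1, abs_mul]
        have h6 : |r 0| * ‖β‖ ^ n ≤ |r 0| * |x - y| :=
          mul_le_mul_of_nonneg_left (hxy.trans h) (abs_nonneg _)
        have h7 : |up n| - |r n| ≤ |ep n| := by
          have : up n = ep n + r n := by simp [hep]
          have h8 := abs_add_le (ep n) (r n)
          rw [← this] at h8
          linarith
        linarith
      · right
        have h5 : |um n| = |r 0| * |x + y| := by rw [e2, abs_mul]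
        have h6 : |r 0| * ‖β‖ ^ n ≤ |r 0| * |x + y| :=
          mul_le_mul_of_nonneg_left (hxy.trans h) (abs_nonneg _)
        have h7 : |um n| - |r n| ≤ |em n| := by
          have : um n = em n + r n := by simp [hem]
          have h8 := abs_add_le (em n) (r n)
          rw [← this] at h8
          linarith
        linarith
    have hpos : ∀ n : ℕ, 0 < (1 / t - 1 / ‖β‖) * δ * ‖β‖ ^ n / 4 := by
      intro n
      have hc1 : 0 < 1 / t - 1 / ‖β‖ := by
        have := one_div_lt_one_div_of_lt ht0 htb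
        linarith
      positivity
    have hsmall : ∀ n : ℕ, n ≤ N → 3 * δ * ‖β‖ ^ n * M1 ≤ 1 := by
      intro n hn
      refine le_trans ?_ hN
      have : ‖β‖ ^ n ≤ ‖β‖ ^ N := pow_le_pow_right₀ hρ1.le hn
      have := mul_le_mul_of_nonneg_left this (show 0 ≤ 3 * M1 * δ by positivity)
      linarith
    have hup3 : ∀ n : ℕ, |ep n| ≤ 3 * δ * ‖β‖ ^ n ∧ |em n| ≤ 3 * δ * ‖β‖ ^ n := by
      intro n
      have hb : (1 : ℝ) ≤ ‖β‖ ^ n := one_le_pow₀ hρ1.le
      have hn : -(L : ℤ) ≤ (n : ℤ) := by omega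
      have h1 : a + 2 * a * ‖β‖ ^ (n : ℤ) ≤ 3 * δ * ‖β‖ ^ n := by
        rw [zpow_natCast]
        nlinarith
      exact ⟨(hepn n hn).trans h1, (hemn n hn).trans h1⟩
    -- the bad pairs
    obtain ⟨f, hf⟩ := t_cnt (Fin 2) ↥S M1 2
      (fun n f => hd (φ n + ((f 0 : ℕ) : ℝ) * ep (n : ℕ) + ((f 1 : ℕ) : ℝ) * em (n : ℕ)) <
        (1 / t - 1 / ‖β‖) * δ * ‖β‖ ^ (n : ℕ) / 4)
      (fun n => if 2 * ((1 / t - 1 / ‖β‖) * δ * ‖β‖ ^ (n : ℕ) / 4) ≤ |ep (n : ℕ)| then 0 else 1)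
      (by
        intro n f
        by_cases h : 2 * ((1 / t - 1 / ‖β‖) * δ * ‖β‖ ^ (n : ℕ) / 4) ≤ |ep (n : ℕ)|
        · rw [if_pos h]
          have h1 := hCN1 M1 (φ n + ((f 1 : ℕ) : ℝ) * em (n : ℕ)) (ep (n : ℕ))
            ((1 / t - 1 / ‖β‖) * δ * ‖β‖ ^ (n : ℕ) / 4)
            (by
              intro h0
              rw [h0, abs_zero] at h
              linarith [hpos n]) h
            (by
              have h2 := (hup3 n).1
              have h3 := hsmall n (hSN n n.2).2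
              have := mul_le_mul_of_nonneg_right h2 hM0'.le
              linarith)
          refine (Finset.card_le_card fun b hb => ?_).trans h1
          rw [mem_filter] at hb ⊢
          refine ⟨mem_univ _, ?_⟩
          have h2 := hb.2
          simp only [Function.update_self, ne_eq, one_ne_zero, not_false_eq_true,
            Function.update_of_ne] at h2
          refine lt_of_eq_of_lt (congrArg hd ?_) h2
          ring
        · rw [if_neg h]
          have h' := (hbig n (hSN n n.2).1).resolve_left h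
          have h1 := hCN1 M1 (φ n + ((f 0 : ℕ) : ℝ) * ep (n : ℕ)) (em (n : ℕ))
            ((1 / t - 1 / ‖β‖) * δ * ‖β‖ ^ (n : ℕ) / 4)
            (by
              intro h0
              rw [h0, abs_zero] at h'
              linarith [hpos n]) h'
            (by
              have h2 := (hup3 n).2
              have h3 := hsmall n (hSN n n.2).2
              have := mul_le_mul_of_nonneg_right h2 hM0'.le
              linarith)
          refine (Finset.card_le_card fun b hb => ?_).trans h1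
          rw [mem_filter] at hb ⊢
          refine ⟨mem_univ _, ?_⟩
          have h2 := hb.2
          simp only [Function.update_self, ne_eq, zero_ne_one, not_false_eq_true,
            Function.update_of_ne] at h2
          refine lt_of_eq_of_lt (congrArg hd ?_) h2
          ring)
      (by rw [Fintype.card_coe]; omega)
    have hf0 := (f 0).2
    have hf1 := (f 1).2
    refine ⟨(f 0 : ℕ) + M1 * (f 1 : ℕ), ?_, ?_⟩
    · calc (f 0 : ℕ) + M1 * (f 1 : ℕ) < M1 + M1 * (f 1 : ℕ) := by omega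
        _ = M1 * ((f 1 : ℕ) + 1) := by ring
        _ ≤ M1 * M1 := Nat.mul_le_mul_left _ hf1
    · intro n hn
      have h1 := hf ⟨n, hn⟩
      rw [not_lt] at h1
      obtain ⟨p, hp⟩ := hGe ((f 0 : ℕ) + M1 * (f 1 : ℕ)) n (by omega)
      have e1 : ((f 0 : ℕ) + M1 * (f 1 : ℕ)) % M1 = (f 0 : ℕ) := by
        rw [Nat.add_mul_mod_self_left, Nat.mod_eq_of_lt hf0]
      have e2 : ((f 0 : ℕ) + M1 * (f 1 : ℕ)) / M1 = (f 1 : ℕ) := by
        rw [Nat.add_mul_div_left _ _ hM0, Nat.div_eq_of_lt hf0, zero_add]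
      rw [e1, e2] at hp
      rw [hp, ← add_assoc, hd_add_int, ← add_assoc]
      exact h1

theorem t_jmb (hCON : CONStmt) (hCN1 : CN1Stmt) : JMBStmt := by
  intro V β l t hF ht htb hS
  have hρ1 : 1 < ‖β‖ := ht.trans htb
  have hρ0 : 0 < ‖β‖ := by linarith
  have ht0 : 0 < t := by linarith
  obtain ⟨ρ, hρ⟩ : ∃ ρ : ℝ, ρ = ‖β‖ := ⟨_, rfl⟩
  obtain ⟨c1, hc1⟩ : ∃ c1 : ℝ, c1 = 1 / t - 1 / ‖β‖ := ⟨_, rfl⟩
  have hc0 : 0 < c1 := by
    have := one_div_lt_one_div_of_lt ht0 htb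
    rw [hc1]
    linarith
  have hc2 : c1 < 1 := by
    rw [hc1]
    have h1 : 1 / t < 1 := by rw [div_lt_one ht0]; exact ht
    have h2 : 0 < 1 / ‖β‖ := by positivity
    linarith
  obtain ⟨s, -, hs1, hs⟩ := hCON ‖β‖ hρ1 (384 / c1) 0
  obtain ⟨M1, hM1⟩ : ∃ M1 : ℕ, M1 = 2 * s + 1 := ⟨_, rfl⟩
  have hM1p : 1 ≤ M1 := by omega
  have hM1' : (1 : ℝ) ≤ M1 := by exact_mod_cast hM1p
  have hM0' : (0 : ℝ) < M1 := by linarith
  obtain ⟨ω, hω⟩ : ∃ ω : ℝ, ω = c1 / (192 * M1) := ⟨_, rfl⟩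
  have hω0 : 0 < ω := by rw [hω]; positivity
  have hω1 : 2 * ω ≤ 1 := by
    rw [hω]
    rw [mul_div_assoc', div_le_one (by positivity)]
    nlinarith
  have hωs : 2 ≤ ω * ‖β‖ ^ s := by
    have h1 : 384 / c1 * (M1 : ℝ) ≤ ‖β‖ ^ s := by
      refine le_trans (mul_le_mul_of_nonneg_left ?_ (by positivity)) hs
      have e1 : ((2 * s + 0 + 1 : ℕ) : ℝ) = (M1 : ℝ) := by rw [hM1]
      rw [e1]
      calc (M1 : ℝ) = (M1 : ℝ) ^ 1 := (pow_one _).symm
        _ ≤ (M1 : ℝ) ^ 6 := pow_le_pow_right₀ hM1' (by norm_num)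
    have h2 := mul_le_mul_of_nonneg_left h1 hω0.le
    refine le_trans (le_of_eq ?_) h2
    rw [hω]
    field_simp
    norm_num
  refine ⟨M1 * M1, c1 / (12 * M1 * ‖β‖ ^ s), by positivity, ?_⟩
  intro ε hε
  obtain ⟨d0, hd0⟩ : ∃ d0 : ℝ, d0 = ε / (6 * M1) := ⟨_, rfl⟩
  have hd0p : 0 < d0 := by rw [hd0]; positivity
  obtain ⟨i0, hi0⟩ : ∃ i0 : ℕ, c1 / (12 * M1 * ‖β‖ ^ s) / (c1 * d0 / 4) < 2 ^ i0 :=
    pow_unbounded_of_one_lt _ (by norm_num)
  -- lower bound for the margins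
  have hlow : ∀ n : ℕ, 1 ≤ n → min (c1 * d0 / 4 * 2 ^ ((n - 1) / s)) (c1 / (12 * M1 * ‖β‖ ^ s)) ≤
      c1 * jd ω d0 ‖β‖ s M1 ((n - 1) / s) * ‖β‖ ^ n / 4 := by
    intro n hn
    obtain ⟨i, hi⟩ : ∃ i : ℕ, i = (n - 1) / s := ⟨_, rfl⟩
    rw [← hi]
    have hin : i * s ≤ n := by
      have := Nat.div_mul_le_self (n - 1) s
      rw [← hi] at this
      omega
    have hpn : ‖β‖ ^ (i * s) ≤ ‖β‖ ^ n := pow_le_pow_right₀ hρ1.le hin
    rcases le_total (ω ^ i * d0) (1 / (3 * M1 * ‖β‖ ^ ((i + 1) * s))) with h | h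
    · refine (min_le_left _ _).trans ?_
      have e1 : jd ω d0 ‖β‖ s M1 i = ω ^ i * d0 := min_eq_left h
      rw [e1]
      have h1 : (2 : ℝ) ^ i ≤ ω ^ i * ‖β‖ ^ n := by
        calc (2 : ℝ) ^ i ≤ (ω * ‖β‖ ^ s) ^ i := pow_le_pow_left₀ (by norm_num) hωs i
          _ = ω ^ i * ‖β‖ ^ (i * s) := by rw [mul_pow, ← pow_mul, mul_comm s i]
          _ ≤ ω ^ i * ‖β‖ ^ n := mul_le_mul_of_nonneg_left hpn (by positivity)
      have h2 := mul_le_mul_of_nonneg_left h1 (show 0 ≤ c1 * d0 / 4 by positivity)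
      refine h2.trans (le_of_eq (by ring))
    · refine (min_le_right _ _).trans ?_
      have e1 : jd ω d0 ‖β‖ s M1 i = 1 / (3 * M1 * ‖β‖ ^ ((i + 1) * s)) := min_eq_right h
      rw [e1]
      have e2 : c1 * (1 / (3 * M1 * ‖β‖ ^ ((i + 1) * s))) * ‖β‖ ^ n / 4 =
          c1 * ‖β‖ ^ n / (12 * M1 * ‖β‖ ^ ((i + 1) * s)) := by
        field_simp
        norm_num
      rw [e2, div_le_div_iff₀ (by positivity) (by positivity)]
      have e3 : (i + 1) * s = i * s + s := by ring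
      rw [e3, pow_add]
      have h1 := mul_le_mul_of_nonneg_left hpn (show 0 ≤ c1 * (12 * M1 * ‖β‖ ^ s) by positivity)
      linarith
  refine ⟨min (c1 * d0 / 4) (c1 / (12 * M1 * ‖β‖ ^ s)), s * i0 + 1, fun n => (n - 1) / s,
    fun n => c1 * jd ω d0 ‖β‖ s M1 ((n - 1) / s) * ‖β‖ ^ n / 4, by positivity, ?_, ?_, ?_⟩
  · intro n hn
    refine le_trans (min_le_min ?_ le_rfl) (hlow n hn)
    have : (1 : ℝ) ≤ 2 ^ ((n - 1) / s) := one_le_pow₀ (by norm_num)
    exact le_mul_of_one_le_right (by positivity) this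
  · intro n hn hnR
    refine le_trans ?_ (hlow n hn)
    refine le_min ?_ le_rfl
    have h1 : i0 ≤ (n - 1) / s := by
      rw [Nat.le_div_iff_mul_le (by omega)]
      have : i0 * s = s * i0 := mul_comm _ _
      omega
    have h2 : (2 : ℝ) ^ i0 ≤ 2 ^ ((n - 1) / s) := pow_le_pow_right₀ (by norm_num) h1
    have h3 := hi0.le.trans h2
    rw [div_le_iff₀ (by positivity)] at h3
    linarith
  · intro i L
    have hdi := jd_pos (s := s) (M1 := M1) hω0 hd0p hρ0 hM1p i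
    obtain ⟨g, hg1, hg2⟩ := jmb_lev hCN1 V β l t hF ht htb hS s M1 hM1 (jd ω d0 ‖β‖ s M1 i) hdi
      ((i + 1) * s) (by
        have h1 : jd ω d0 ‖β‖ s M1 i ≤ 1 / (3 * M1 * ‖β‖ ^ ((i + 1) * s)) := min_le_right _ _
        rw [le_div_iff₀ (by positivity)] at h1
        linarith) L
    refine ⟨g, fun k hk => ⟨(hg1 k hk).1, (hg1 k hk).2.1, ?_, ?_⟩, ?_⟩
    · intro n hn hn0
      refine ((hg1 k hk).2.2.1 n hn hn0).trans ?_
      have h1 : jd ω d0 ‖β‖ s M1 i ≤ ω ^ i * d0 := min_le_left _ _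
      have h2 : ω ^ i ≤ (1 / 2) ^ i := pow_le_pow_left₀ hω0.le (by linarith) i
      have h3 : 6 * M1 * jd ω d0 ‖β‖ s M1 i ≤ 6 * M1 * (ω ^ i * d0) :=
        mul_le_mul_of_nonneg_left h1 (by positivity)
      have e1 : 6 * M1 * (ω ^ i * d0) = ε * ω ^ i := by
        rw [hd0]
        field_simp
      rw [e1] at h3
      exact h3.trans (mul_le_mul_of_nonneg_left h2 hε.le)
    · intro n hn hni
      refine ((hg1 k hk).2.2.2 n).trans ?_
      obtain ⟨b, hb⟩ : ∃ b : ℕ, b = (n - 1) / s := ⟨_, rfl⟩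
      have hni' : b < i := by rw [hb]; exact hni
      simp only [← hb]
      obtain ⟨j, hj⟩ := Nat.exists_eq_add_of_lt hni'
      -- i = b + j + 1
      have e0 : i - b = j + 1 := by omega
      rw [e0]
      have h1 := jd_le_add (d0 := d0) (i := b) (j := j + 1) hω0 hρ0 hM1p
        (show 1 ≤ ω * ‖β‖ ^ s by linarith)
      have e1 : b + (j + 1) = i := by omega
      rw [e1] at h1
      have hdb := jd_pos (s := s) (M1 := M1) hω0 hd0p hρ0 hM1p b
      have h2 : 6 * M1 * jd ω d0 ‖β‖ s M1 i * ‖β‖ ^ n ≤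
          6 * M1 * (ω ^ (j + 1) * jd ω d0 ‖β‖ s M1 b) * ‖β‖ ^ n :=
        mul_le_mul_of_nonneg_right (mul_le_mul_of_nonneg_left h1 (by positivity)) (by positivity)
      refine h2.trans ?_
      -- (2 ω)^(j+1) ≤ 2 ω
      have h3 : (2 * ω) ^ (j + 1) ≤ 2 * ω := by
        rw [pow_succ]
        exact mul_le_of_le_one_left (by positivity) (pow_le_one₀ (by positivity) hω1)
      have h4 : ω ^ (j + 1) ≤ 2 * ω * (1 / 2) ^ (j + 1) := by
        have e2 : ω ^ (j + 1) = (2 * ω) ^ (j + 1) * (1 / 2) ^ (j + 1) := by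
          rw [← mul_pow]
          congr 1
          ring
        rw [e2]
        exact mul_le_mul_of_nonneg_right h3 (by positivity)
      have h5 : 6 * M1 * (ω ^ (j + 1) * jd ω d0 ‖β‖ s M1 b) * ‖β‖ ^ n ≤
          6 * M1 * ((2 * ω * (1 / 2) ^ (j + 1)) * jd ω d0 ‖β‖ s M1 b) * ‖β‖ ^ n :=
        mul_le_mul_of_nonneg_right (mul_le_mul_of_nonneg_left
          (mul_le_mul_of_nonneg_right h4 hdb.le) (by positivity)) (by positivity)
      refine h5.trans (le_of_eq ?_)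
      rw [hω]
      field_simp
      ring
    · intro φ
      obtain ⟨k, hk, hk2⟩ := hg2 φ (Finset.Ioc (i * s) ((i + 1) * s))
        (by
          rw [Nat.card_Ioc]
          have : (i + 1) * s = i * s + s := by ring
          omega)
        (by
          intro n hn
          rw [mem_Ioc] at hn
          omega)
      refine ⟨k, hk, fun n hn hni => ?_⟩
      have hni' : (n - 1) / s = i := hni
      have h1 : n ∈ Finset.Ioc (i * s) ((i + 1) * s) := by
        rw [mem_Ioc]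
        have h2 : i * s ≤ n - 1 := by
          rw [← hni']
          exact Nat.div_mul_le_self _ _
        have h3 : n - 1 < (i + 1) * s := by
          rw [← hni', ← Nat.div_lt_iff_lt_mul (by omega)]
          omega
        omega
      have h4 := hk2 n h1
      rw [← hc1] at h4
      simp only [hni']
      exact h4

end Pool.LSP
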